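import Pool.Agent.L5helper33.LG.C6a

/-!
# Project LG, job C6: the arithmetic part with windows
-/

set_option autoImplicit false

namespace Pool.Agent.L5helper33.LG

open Finset Filter Topology
open Pool.Agent.L5helper16.LG Pool.Agent.L5helper55.LG

theorem abs_bounds {m B η : ℝ} (h : ¬ η * B < |m - B|) : (1 - η) * B ≤ m ∧ m ≤ (1 + η) * B := by
  rw [not_lt, abs_le] at h
  constructor <;> nlinarith [h.1, h.2]

/-- the numbers `k` which are good for three windows -/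
theorem good3 (Ks : Finset ℕ) (K0 : ℕ) (hK : #Ks = K0) (η : ℝ) (hη4 : η ≤ 1 / 4) (P1 P2 P3 : ℕ → Prop)
    [DecidablePred P1] [DecidablePred P2] [DecidablePred P3]
    (h1 : (#(Ks.filter P1) : ℝ) ≤ η * K0) (h2 : (#(Ks.filter P2) : ℝ) ≤ η * K0)
    (h3 : (#(Ks.filter P3) : ℝ) ≤ η * K0) :
    ∃ Gd : Finset ℕ, Gd ⊆ Ks ∧ (K0 : ℝ) / 4 ≤ #Gd ∧ ∀ k ∈ Gd, ¬ P1 k ∧ ¬ P2 k ∧ ¬ P3 k := by
  classical
  set Bd := (Ks.filter P1 ∪ Ks.filter P2) ∪ Ks.filter P3 with hBd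
  refine ⟨Ks \ Bd, sdiff_subset, ?_, ?_⟩
  · have g1 : #Bd ≤ #(Ks.filter P1) + #(Ks.filter P2) + #(Ks.filter P3) :=
      (card_union_le _ _).trans (Nat.add_le_add_right (card_union_le _ _) _)
    have g2 : #Ks ≤ #(Ks \ Bd) + #Bd := card_le_card_sdiff_add_card
    have g3 : (#Ks : ℝ) ≤ #(Ks \ Bd) + (#(Ks.filter P1) + #(Ks.filter P2) + #(Ks.filter P3)) := by
      exact_mod_cast g2.trans (Nat.add_le_add_left g1 _)
    rw [hK] at g3
    have g4 : (0 : ℝ) ≤ K0 := by positivity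
    have g5 : η * K0 ≤ 1 / 4 * K0 := mul_le_mul_of_nonneg_right hη4 g4
    linarith
  · intro k hk
    obtain ⟨hk1, hk2⟩ := Finset.mem_sdiff.1 hk
    rw [hBd, Finset.mem_union, Finset.mem_union, Finset.mem_filter, Finset.mem_filter,
      Finset.mem_filter] at hk2
    tauto

theorem big {b η lL L lz ly N V M₀ : ℝ} (hη4 : η ≤ 1 / 4) (hηb : η ≤ b / 2) (hb : 0 < b)
    (hlL : 0 < lL) (hL : 0 < L) (hly : 0 < ly)
    (hN : (b - η) * (L ^ 2 / (2 * lL)) ≤ N) (hV : (1 - η) * (lz / ly) ≤ V)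
    (hz : (1 - η) * lL ≤ lz) (hy : ly ≤ L) (hM : M₀ ≤ b / 16 * L) : M₀ ≤ N * V := by
  have h1 : lL / 2 ≤ lz := le_trans (by nlinarith) hz
  have hlz : 0 < lz := by linarith
  have h2 : lL / 2 / L ≤ lz / ly := div_le_div₀ hlz.le h1 hly hy
  have h3 : 1 / 2 * (lL / 2 / L) ≤ V := by
    refine le_trans ?_ hV
    exact mul_le_mul (by linarith) h2 (by positivity) (by linarith)
  have h4 : b / 2 * (L ^ 2 / (2 * lL)) ≤ N := by
    refine le_trans ?_ hN
    exact mul_le_mul_of_nonneg_right (by linarith) (by positivity)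
  calc M₀ ≤ b / 16 * L := hM
    _ = (b / 2 * (L ^ 2 / (2 * lL))) * (1 / 2 * (lL / 2 / L)) := by field_simp; ring
    _ ≤ N * V := mul_le_mul h4 h3 (by positivity) (le_trans (by positivity) h4)

theorem c6 (_a3 : St_A3) (a4 : St_A4) (c3 : St_C3) (c4 : St_C4) (c5 : St_C5) : St_C6 := by
  classical
  intro θ c τ hθ hc hτ w hwm hw6 hw0 δ₁ hδ₁
  obtain ⟨η, hη, hη4, hηc, hητ, hE1, hE2, hE3⟩ := exists_eta6 (θ := θ) hc hτ hδ₁
  set δ := min δ₁ (1 / 4) with hδ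
  have hδ0 : 0 < δ := lt_min hδ₁ (by norm_num)
  have hδ4 : δ ≤ 1 / 4 := min_le_right _ _
  have hδδ : δ ≤ δ₁ := min_le_left _ _
  refine ⟨η, hη, ?_⟩
  set ρ := δ / 4 with hρ
  have hρ0 : 0 < ρ := by positivity
  have hρ1 : ρ ≤ 1 := by rw [hρ]; linarith
  obtain ⟨C₀, hC₀, D₃, M₀, h3⟩ := c3 η hη
  obtain ⟨D₄, h4⟩ := a4 η hη
  obtain ⟨D₅, h5⟩ := c5 η hη
  obtain ⟨T, hT2, hT⟩ := floor_log hη
  set κ := τ + c + τ with hκ
  have hκ0 : 0 < κ := by positivity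
  set b := min c τ with hb
  have hb0 : 0 < b := lt_min hc hτ
  have hbc : b ≤ c := min_le_left _ _
  have hbτ : b ≤ τ := min_le_right _ _
  have e11 : ∀ᶠ x : ℕ in atTop, (T + D₄ + D₅ + 1 : ℝ) ≤ (x : ℝ) ^ (θ / 2) :=
    ((tendsto_rpow_atTop (by positivity)).comp tendsto_natCast_atTop_atTop).eventually_ge_atTop _
  have e12 : ∀ᶠ x : ℕ in atTop, (2 : ℝ) ≤ (x : ℝ) ^ ((1 : ℝ) / 4) :=
    ((tendsto_rpow_atTop (by norm_num)).comp tendsto_natCast_atTop_atTop).eventually_ge_atTop _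
  filter_upwards [(z_tendsto hρ0).eventually_ge_atTop (max (max D₃ (max D₄ D₅)) 1), hw6,
    ev_log.eventually_ge_atTop (T + D₄ + D₅ + 2), ev_small4 hw0 (ε := 1 / (4 * C₀)) (by positivity),
    ev_small4 hw0 (ε := θ / 2) (by positivity), ev_small4 hw0 (ε := 1) (by positivity),
    c4 0 τ ρ η le_rfl hτ hρ0 hη, c4 τ (τ + c) ρ η hτ.le (by linarith) hρ0 hη,
    c4 (τ + c) κ ρ η (by positivity) (by rw [hκ]; linarith) hρ0 hη,
    h_le hκ0 hρ0, xh_le hκ0, K0_ge hδ0 (by linarith), pow_ge hδ0 (η := 1 / 2) (by norm_num),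
    e11, e12, ev_log.eventually_ge_atTop (Real.log 4 / η), z_log hρ0 hη,
    ev_log.eventually_ge_atTop (M₀ / (b / 16)), ct_lt hκ0 hρ0, eventually_ge_atTop 4]
    with x f2 f3 f4 f5 f6 f6' n1 n2 n3 f8 f9 f10 f11 f12 f13 f14 f15 f17 f18 f16 f1
  have hx4 : (4 : ℝ) ≤ x := by exact_mod_cast f16
  have hx0 : (0 : ℝ) < x := by linarith
  set L := Real.log (x : ℝ) with hLdef
  have hD40 : (0 : ℝ) ≤ D₄ := by positivity
  have hD50 : (0 : ℝ) ≤ D₅ := by positivity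
  have hL1 : 1 ≤ L := by linarith
  have hLpos : 0 < L := by linarith
  set z := ⌊ρ * L⌋₊ with hz
  have hz1 : 1 ≤ z := (le_max_right _ _).trans f2
  have hzD3 : D₃ ≤ z := (le_max_left _ _).trans ((le_max_left _ _).trans f2)
  have hzD4 : D₄ ≤ z := (le_max_left _ _).trans ((le_max_right _ _).trans ((le_max_left _ _).trans f2))
  have hzD5 : D₅ ≤ z := (le_max_right _ _).trans ((le_max_right _ _).trans ((le_max_left _ _).trans f2))
  have hzL : (z : ℝ) ≤ L := (Nat.floor_le (by positivity)).trans (mul_le_of_le_one_left (by linarith) hρ1)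
  have hLw : L ≤ w x := le_trans (le_self_pow₀ hL1 (by norm_num)) f3
  have hW4 : w x ≤ w (4 * x) := hwm (by omega)
  have hzW : (z : ℝ) ≤ w x := hzL.trans hLw
  have hzW4 : (z : ℝ) ≤ w (4 * x) := hzW.trans hW4
  have hWpos : 0 < w x := by linarith
  have hW4pos : 0 < w (4 * x) := by linarith
  have hWT : T ≤ w x := by linarith
  have hW4T : T ≤ w (4 * x) := by linarith
  set y := ⌊w x⌋₊ with hy
  set y4 := ⌊w (4 * x)⌋₊ with hy4
  have hzy : z ≤ y := Nat.le_floor hzW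
  have hzy4 : z ≤ y4 := Nat.le_floor hzW4
  have hyy4 : y ≤ y4 := Nat.floor_le_floor hW4
  set K0 := x / primorial z with hK0
  have hx78 : (x : ℝ) ^ ((3 : ℝ) / 4) ≤ (x : ℝ) ^ (1 - δ / 2) :=
    Real.rpow_le_rpow_of_exponent_le (by linarith) (by linarith)
  have g10 : (x : ℝ) ^ (1 - δ / 2) ≤ 2 * (K0 : ℝ) := f10
  have hx14 : (x : ℝ) ^ ((1 : ℝ) / 4) ≤ K0 := by
    have g1 : (x : ℝ) ^ ((3 : ℝ) / 4) = (x : ℝ) ^ ((1 : ℝ) / 4) * ((x : ℝ) ^ ((1 : ℝ) / 4) * (x : ℝ) ^ ((1 : ℝ) / 4)) := by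
      rw [← Real.rpow_add hx0, ← Real.rpow_add hx0]; norm_num
    have g2 : 0 < (x : ℝ) ^ ((1 : ℝ) / 4) := by positivity
    have g3 : 2 * (x : ℝ) ^ ((1 : ℝ) / 4) ≤ (x : ℝ) ^ ((3 : ℝ) / 4) := by
      rw [g1, mul_comm]
      refine mul_le_mul_of_nonneg_left ?_ g2.le
      calc (2 : ℝ) ≤ 2 * 2 := by norm_num
        _ ≤ _ := mul_le_mul f13 f13 (by norm_num) g2.le
    linarith
  have hy4C : (y4 : ℝ) ^ C₀ ≤ K0 := by
    refine le_trans ?_ hx14
    have g1 : (y4 : ℝ) ≤ w (4 * x) := Nat.floor_le hW4pos.le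
    calc (y4 : ℝ) ^ C₀ ≤ (w (4 * x)) ^ C₀ := Real.rpow_le_rpow (by positivity) g1 hC₀.le
      _ = Real.exp (Real.log (w (4 * x)) * C₀) := Real.rpow_def_of_pos hW4pos _
      _ ≤ Real.exp (L * (1 / 4)) := by
          apply Real.exp_le_exp.2
          calc Real.log (w (4 * x)) * C₀ ≤ 1 / (4 * C₀) * L * C₀ := mul_le_mul_of_nonneg_right f5 hC₀.le
            _ = L * (1 / 4) := by field_simp
      _ = (x : ℝ) ^ ((1 : ℝ) / 4) := (Real.rpow_def_of_pos hx0 _).symm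
  have hyC : (y : ℝ) ^ C₀ ≤ K0 := le_trans (Real.rpow_le_rpow (by positivity) (by exact_mod_cast hyy4) hC₀.le) hy4C
  have hlL : 0 < Real.log L := Real.log_pos (by linarith)
  have hlz : Real.log z ≤ Real.log L := Real.log_le_log (by exact_mod_cast hz1) hzL
  -- logarithms
  have hly1 := hT _ hWT
  have hly41 := hT _ hW4T
  have hlw : 0 < Real.log (w x) := Real.log_pos (by linarith)
  have hlww : Real.log (w x) ≤ Real.log (w (4 * x)) := Real.log_le_log hWpos hW4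
  have hly : 0 < Real.log y := by
    have g8 : 0 < (1 + η) * Real.log y := hlw.trans_le hly1
    exact (pos_iff_pos_of_mul_pos g8).1 (by positivity)
  have hly4 : 0 < Real.log y4 := by
    have g8 : 0 < (1 + η) * Real.log y4 := (hlw.trans_le hlww).trans_le hly41
    exact (pos_iff_pos_of_mul_pos g8).1 (by positivity)
  have hly_le : Real.log y ≤ Real.log (w x) := by
    apply Real.log_le_log _ (Nat.floor_le hWpos.le)
    by_contra h0
    rw [not_lt] at h0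
    have : (y : ℝ) = 0 := le_antisymm h0 (by positivity)
    rw [this, Real.log_zero] at hly
    exact lt_irrefl _ hly
  have hly4_le : Real.log y4 ≤ Real.log (w (4 * x)) := by
    apply Real.log_le_log _ (Nat.floor_le hW4pos.le)
    by_contra h0
    rw [not_lt] at h0
    have : (y4 : ℝ) = 0 := le_antisymm h0 (by positivity)
    rw [this, Real.log_zero] at hly4
    exact lt_irrefl _ hly4
  have f6'' : Real.log (w (4 * x)) ≤ L := by linarith
  -- the cardinalities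
  have hN1 : |(#(DD z 0 τ x) : ℝ) - (τ - 0) * L ^ 2 / (2 * Real.log L)| ≤ η * (L ^ 2 / (2 * Real.log L)) := by
    exact n1
  have hN2 : |(#(DD z τ (τ + c) x) : ℝ) - (τ + c - τ) * L ^ 2 / (2 * Real.log L)| ≤ η * (L ^ 2 / (2 * Real.log L)) := by
    exact n2
  have hN3 : |(#(DD z (τ + c) κ x) : ℝ) - (κ - (τ + c)) * L ^ 2 / (2 * Real.log L)| ≤ η * (L ^ 2 / (2 * Real.log L)) := by
    exact n3
  rw [abs_le] at hN1 hN2 hN3
  set B := L ^ 2 / (2 * Real.log L) with hB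
  have hB0 : 0 < B := by positivity
  have m1 : (τ - η) * B ≤ #(DD z 0 τ x) := by
    have : (τ - 0) * L ^ 2 / (2 * Real.log L) = τ * B := by rw [hB]; ring
    linarith [hN1.1]
  have m2 : (c - η) * B ≤ #(DD z τ (τ + c) x) := by
    have : (τ + c - τ) * L ^ 2 / (2 * Real.log L) = c * B := by rw [hB]; ring
    linarith [hN2.1]
  have m2' : (#(DD z τ (τ + c) x) : ℝ) ≤ (c + η) * B := by
    have : (τ + c - τ) * L ^ 2 / (2 * Real.log L) = c * B := by rw [hB]; ring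
    linarith [hN2.2]
  have m3 : (τ - η) * B ≤ #(DD z (τ + c) κ x) := by
    have : (κ - (τ + c)) * L ^ 2 / (2 * Real.log L) = τ * B := by rw [hB, hκ]; ring
    linarith [hN3.1]
  -- Mertens
  have v1 := h4 z y hzD4 hzy
  have v1' := h5 z y hzD5 hzy
  have v4' := h5 z y4 hzD5 hzy4
  have hVy := VV_pos z y
  have hVy4 := VV_pos z y4
  have hMb : M₀ ≤ b / 16 * L := by
    rw [div_le_iff₀ (by positivity)] at f17
    linarith
  have hMc : M₀ ≤ c / 16 * L := hMb.trans (mul_le_mul_of_nonneg_right (by linarith) hLpos.le)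
  have hMτ : M₀ ≤ τ / 16 * L := hMb.trans (mul_le_mul_of_nonneg_right (by linarith) hLpos.le)
  have M1 : M₀ ≤ #(DD z 0 τ x) * VV (prI z y4) :=
    big hη4 hητ hτ hlL hLpos hly4 m1 v4' f15 (hly4_le.trans f6'') hMτ
  have M2 : M₀ ≤ #(DD z τ (τ + c) x) * VV (prI z y) :=
    big hη4 hηc hc hlL hLpos hly m2 v1' f15 (hly_le.trans (hlww.trans f6'')) hMc
  have M3 : M₀ ≤ #(DD z (τ + c) κ x) * VV (prI z y4) :=
    big hη4 hητ hτ hlL hLpos hly4 m3 v4' f15 (hly4_le.trans f6'') hMτ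
  -- the good numbers
  set P := primorial z with hP
  have hPpos : 0 < P := primorial_pos z
  have hPd : ∀ p : ℕ, p.Prime → (p ∣ P ↔ p ≤ z) := fun p hp => hp.dvd_primorial_iff
  set a := x / P + 1 with ha
  have b1 := h3 z y4 K0 a (ct κ x) P hzD3 hzy4 hy4C hPd f18 (DD z 0 τ x) (DD_sub (by rw [hκ]; linarith) x) M1
  have b2 := h3 z y K0 a (ct κ x) P hzD3 hzy hyC hPd f18 (DD z τ (τ + c) x) (DD_sub (by rw [hκ]; linarith) x) M2
  have b3 := h3 z y4 K0 a (ct κ x) P hzD3 hzy4 hy4C hPd f18 (DD z (τ + c) κ x) (DD_sub le_rfl x) M3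
  obtain ⟨Gd, hGs, hGc, hG⟩ := good3 (Ico a (a + K0)) K0 (by rw [Nat.card_Ico, Nat.add_sub_cancel_left]) η hη4 _ _ _ b1 b2 b3
  have hctP : ct κ x ≤ P := f8
  refine ⟨Gd.image fun k => k * P, ?_, ?_, ?_, ?_⟩
  · intro u hu
    obtain ⟨k, hk, rfl⟩ := mem_image.1 hu
    have hk' := hGs hk
    rw [mem_Ico] at hk'
    have h1 : x < P * (x / P + 1) := Nat.lt_mul_div_succ x hPpos
    have h2 : P * (x / P + 1) ≤ k * P := by rw [mul_comm k P]; exact Nat.mul_le_mul_left P hk'.1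
    have h3 : k ≤ 2 * (x / P) := by omega
    have h4 : k * P ≤ 2 * (x / P) * P := Nat.mul_le_mul_right P h3
    have h5 : x / P * P ≤ x := Nat.div_mul_le_self x P
    have h6 : k * P ≤ 2 * x := by
      refine h4.trans ?_
      rw [mul_assoc]
      exact Nat.mul_le_mul_left 2 h5
    have h7 : 2 * x + ct κ x ≤ 4 * x := f9
    exact ⟨by omega, by omega⟩
  · intro u hu v hv huv
    obtain ⟨k, hk, rfl⟩ := mem_image.1 hu
    obtain ⟨l, hl, rfl⟩ := mem_image.1 hv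
    have h1 : k < l := lt_of_mul_lt_mul_right huv (Nat.zero_le P)
    have h2 : (k + 1) * P ≤ l * P := Nat.mul_le_mul_right P h1
    have h4 : (k + 1) * P = k * P + P := by ring
    show k * P + ct κ x ≤ l * P
    omega
  · rw [card_image_of_injective _ (fun k l hkl => Nat.eq_of_mul_eq_mul_right hPpos hkl)]
    have g5 : (x : ℝ) ^ (1 - δ₁) ≤ (x : ℝ) ^ (1 - δ) := Real.rpow_le_rpow_of_exponent_le (by linarith) (by linarith)
    refine g5.trans (f11.trans (le_trans ?_ hGc))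
    linarith
  · intro u hu
    obtain ⟨k, hk, rfl⟩ := mem_image.1 hu
    obtain ⟨q1, q2, q3⟩ := hG k hk
    rw [← ss_card P z y4 x k 0 τ (w (4 * x)) hPd hzW4 hy4] at q1
    rw [← ss_card P z y x k τ (τ + c) (w x) hPd hzW hy] at q2
    rw [← ss_card P z y4 x k (τ + c) κ (w (4 * x)) hPd hzW4 hy4] at q3
    have r1 := abs_bounds q1
    have r2 := abs_bounds q2
    have r3 := abs_bounds q3
    -- the larger primes
    have g2 : w (4 * x) ≤ (x : ℝ) ^ (θ / 2) := by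
      rw [Real.rpow_def_of_pos hx0, ← Real.log_le_iff_le_exp hW4pos]
      calc Real.log (w (4 * x)) ≤ θ / 2 * L := f6
        _ = Real.log x * (θ / 2) := by rw [hLdef]; ring
    have g3 : (x : ℝ) ^ (θ / 2) ≤ (x : ℝ) ^ θ := Real.rpow_le_rpow_of_exponent_le (by linarith) (by linarith)
    have g3' : (x : ℝ) ^ θ ≤ (4 * (x : ℝ)) ^ θ := Real.rpow_le_rpow hx0.le (by linarith) hθ.le
    have g4 : y4 ≤ ⌊(x : ℝ) ^ θ⌋₊ := Nat.floor_le_floor (g2.trans g3)
    have g4' : y ≤ ⌊(4 * (x : ℝ)) ^ θ⌋₊ := hyy4.trans (g4.trans (Nat.floor_le_floor g3'))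
    have hV2 := h4 y4 ⌊(x : ℝ) ^ θ⌋₊ (hzD4.trans hzy4) g4
    have hV2' := h5 y ⌊(4 * (x : ℝ)) ^ θ⌋₊ (hzD5.trans hzy) g4'
    have g6 : T ≤ (x : ℝ) ^ θ := by linarith
    have hlt1 := hT _ g6
    rw [Real.log_rpow hx0] at hlt1
    have hlt : 0 < Real.log ⌊(x : ℝ) ^ θ⌋₊ := by
      have g8 : 0 < (1 + η) * Real.log ⌊(x : ℝ) ^ θ⌋₊ := lt_of_lt_of_le (by positivity) hlt1
      exact (pos_iff_pos_of_mul_pos g8).1 (by positivity)
    have hfpos : (0 : ℝ) < ⌊(x : ℝ) ^ θ⌋₊ := by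
      by_contra h0
      rw [not_lt] at h0
      have : ((⌊(x : ℝ) ^ θ⌋₊ : ℕ) : ℝ) = 0 := le_antisymm h0 (by positivity)
      rw [this, Real.log_zero] at hlt
      exact lt_irrefl _ hlt
    have hlt2 : 0 < Real.log ⌊(4 * (x : ℝ)) ^ θ⌋₊ := by
      refine lt_of_lt_of_le hlt (Real.log_le_log hfpos ?_)
      exact_mod_cast Nat.floor_le_floor g3'
    have hlt2' : Real.log ⌊(4 * (x : ℝ)) ^ θ⌋₊ ≤ (1 + η) * (θ * L) := by
      have s1 : Real.log ⌊(4 * (x : ℝ)) ^ θ⌋₊ ≤ Real.log ((4 * (x : ℝ)) ^ θ) := by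
        apply Real.log_le_log _ (Nat.floor_le (by positivity))
        refine lt_of_lt_of_le hfpos ?_
        exact_mod_cast Nat.floor_le_floor g3'
      rw [Real.log_rpow (by positivity), Real.log_mul (by norm_num) hx0.ne'] at s1
      have s2 : Real.log 4 ≤ η * L := by
        rw [div_le_iff₀ hη] at f14
        linarith
      calc Real.log ⌊(4 * (x : ℝ)) ^ θ⌋₊ ≤ θ * (Real.log 4 + L) := s1
        _ ≤ θ * (η * L + L) := mul_le_mul_of_nonneg_left (by linarith) hθ.le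
        _ = (1 + η) * (θ * L) := by ring
    have hw4l : Real.log y4 ≤ (1 + η) * Real.log (w x) := hly4_le.trans f1
    have hyl : Real.log y ≤ (1 + η) * Real.log (w x) := hly_le.trans (le_mul_of_one_le_left hlw.le (by linarith))
    -- upper bound for the middle window
    have U : (#(SS (w x) τ (τ + c) x (k * P)) : ℝ) * VV (prI y4 ⌊(x : ℝ) ^ θ⌋₊) ≤
        (1 + η) ^ 8 * ((c + η) / (2 * θ)) * L := by
      have hcη : 0 < c + η := by positivity
      refine final (B := (1 + η) * ((c + η) * L ^ 2 / (2 * Real.log L))) hη hcη hθ hLpos hlL hly hlt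
        (VV_pos _ _).le rfl v1 hV2 hlz hw4l hly1 hlt1 ?_
      refine r2.2.trans ?_
      have s1 : (#(DD z τ (τ + c) x) : ℝ) ≤ (c + η) * L ^ 2 / (2 * Real.log L) := by
        have : (c + η) * L ^ 2 / (2 * Real.log L) = (c + η) * B := by rw [hB]; ring
        rw [this]; exact m2'
      calc (1 + η) * (#(DD z τ (τ + c) x) * VV (prI z y))
          ≤ (1 + η) * ((c + η) * L ^ 2 / (2 * Real.log L) * VV (prI z y)) := by gcongr
        _ = (1 + η) ^ 2 * (1 * ((c + η) * L ^ 2 / (2 * Real.log L)) * VV (prI z y)) / (1 + η) := by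
            field_simp
        _ ≤ (1 + η) ^ 2 * ((1 + η) * ((c + η) * L ^ 2 / (2 * Real.log L)) * VV (prI z y)) := by
            rw [div_le_iff₀ (by positivity)]
            have s2 : 0 ≤ (c + η) * L ^ 2 / (2 * Real.log L) * VV (prI z y) := by positivity
            have s3 : 1 ≤ (1 + η) * (1 + η) := one_le_mul_of_one_le_of_one_le (by linarith) (by linarith)
            calc (1 + η) ^ 2 * (1 * ((c + η) * L ^ 2 / (2 * Real.log L)) * VV (prI z y))
                = (1 + η) ^ 2 * (((c + η) * L ^ 2 / (2 * Real.log L)) * VV (prI z y)) * 1 := by ring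
              _ ≤ (1 + η) ^ 2 * (((c + η) * L ^ 2 / (2 * Real.log L)) * VV (prI z y)) * ((1 + η) * (1 + η)) :=
                  mul_le_mul_of_nonneg_left s3 (by positivity)
              _ = _ := by ring
    have Lw : (1 - η) ^ 4 / (1 + η) ^ 3 * ((c - η) / (2 * θ)) * L ≤
        (#(SS (w x) τ (τ + c) x (k * P)) : ℝ) * VV (prI y ⌊(4 * (x : ℝ)) ^ θ⌋₊) :=
      lower hη (by linarith) (by linarith) hθ hLpos hlL hlw hly hlt2 m2 v1' hV2' f15 hyl hly1 hlt2' r2.1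
    have L1 : (1 - η) ^ 4 / (1 + η) ^ 3 * ((τ - η) / (2 * θ)) * L ≤
        (#(SS (w (4 * x)) 0 τ x (k * P)) : ℝ) * VV (prI y ⌊(4 * (x : ℝ)) ^ θ⌋₊) :=
      lower hη (by linarith) (by linarith) hθ hLpos hlL hlw hly4 hlt2 m1 v4' hV2' f15 hw4l hly1 hlt2' r1.1
    have L3 : (1 - η) ^ 4 / (1 + η) ^ 3 * ((τ - η) / (2 * θ)) * L ≤
        (#(SS (w (4 * x)) (τ + c) κ x (k * P)) : ℝ) * VV (prI y ⌊(4 * (x : ℝ)) ^ θ⌋₊) :=
      lower hη (by linarith) (by linarith) hθ hLpos hlL hlw hly4 hlt2 m3 v4' hV2' f15 hw4l hly1 hlt2' r3.1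
    have t1 := mul_le_mul_of_nonneg_right hE1 hLpos.le
    have t2 := mul_le_mul_of_nonneg_right hE2 hLpos.le
    have t3 := mul_le_mul_of_nonneg_right hE3 hLpos.le
    refine ⟨U.trans t1, ?_, t3.trans L1, t3.trans L3⟩
    have : (#(SS (w x) τ (τ + c) x (k * P)) : ℝ) * (VV (Q1 w θ x) - VV (Q2 w θ x)) =
        (#(SS (w x) τ (τ + c) x (k * P)) : ℝ) * VV (prI y4 ⌊(x : ℝ) ^ θ⌋₊) -
        (#(SS (w x) τ (τ + c) x (k * P)) : ℝ) * VV (prI y ⌊(4 * (x : ℝ)) ^ θ⌋₊) := by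
      rw [Q1, Q2]; ring
    rw [this]
    linarith

end Pool.Agent.L5helper33.LG
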