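import Pool.Agent.L5helper16.LG.Defs4
import Pool.Agent.L5helper55.LG.A5

/-!
# Project LG, job C6, part a
-/

set_option autoImplicit false

namespace Pool.Agent.L5helper33.LG

open Finset Filter Topology
open Pool.Agent.L5helper16.LG Pool.Agent.L5helper55.LG

theorem lower {η c θ L lL lz ly1 ly2 lw lt2 N V1 V2 m : ℝ} (hη : 0 < η) (hη1 : η < 1) (hc : η ≤ c)
    (hθ : 0 < θ) (hL : 0 < L) (hlL : 0 < lL) (hlw : 0 < lw) (hly1 : 0 < ly1) (hlt2 : 0 < lt2)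
    (hN : (c - η) * (L ^ 2 / (2 * lL)) ≤ N) (hV1 : (1 - η) * (lz / ly1) ≤ V1)
    (hV2 : (1 - η) * (ly2 / lt2) ≤ V2) (hz : (1 - η) * lL ≤ lz) (h1 : ly1 ≤ (1 + η) * lw)
    (h2 : lw ≤ (1 + η) * ly2) (h3 : lt2 ≤ (1 + η) * (θ * L)) (hm : (1 - η) * (N * V1) ≤ m) :
    (1 - η) ^ 4 / (1 + η) ^ 3 * ((c - η) / (2 * θ)) * L ≤ m * V2 := by
  have hη' : 0 < 1 - η := by linarith
  have hc' : 0 ≤ c - η := by linarith
  have hlz : 0 < lz := lt_of_lt_of_le (by positivity) hz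
  have hly2 : 0 < ly2 := by
    have : 0 < (1 + η) * ly2 := hlw.trans_le h2
    exact (pos_iff_pos_of_mul_pos this).1 (by positivity)
  have a1 : (1 - η) * lL / ((1 + η) * lw) ≤ lz / ly1 := div_le_div₀ hlz.le hz hly1 h1
  have a2 : lw / (1 + η) / ((1 + η) * (θ * L)) ≤ ly2 / lt2 := by
    apply div_le_div₀ hly2.le _ hlt2 h3
    rw [div_le_iff₀ (by positivity)]
    linarith
  have b1 : (1 - η) * ((1 - η) * lL / ((1 + η) * lw)) ≤ V1 :=
    (mul_le_mul_of_nonneg_left a1 hη'.le).trans hV1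
  have b2 : (1 - η) * (lw / (1 + η) / ((1 + η) * (θ * L))) ≤ V2 :=
    (mul_le_mul_of_nonneg_left a2 hη'.le).trans hV2
  have hV2p : 0 ≤ V2 := le_trans (by positivity) b2
  have hNp : 0 ≤ N := le_trans (by positivity) hN
  calc (1 - η) ^ 4 / (1 + η) ^ 3 * ((c - η) / (2 * θ)) * L
      = ((1 - η) * (((c - η) * (L ^ 2 / (2 * lL))) * ((1 - η) * ((1 - η) * lL / ((1 + η) * lw))))) *
        ((1 - η) * (lw / (1 + η) / ((1 + η) * (θ * L)))) := by field_simp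
    _ ≤ ((1 - η) * (N * V1)) * V2 := by
        apply mul_le_mul _ b2 (by positivity)
        · apply mul_nonneg hη'.le
          exact mul_nonneg hNp (le_trans (by positivity) b1)
        · apply mul_le_mul_of_nonneg_left _ hη'.le
          exact mul_le_mul hN b1 (by positivity) hNp
    _ ≤ m * V2 := mul_le_mul_of_nonneg_right hm hV2p

theorem exists_eta6 {c τ θ δ : ℝ} (hc : 0 < c) (hτ : 0 < τ) (hδ : 0 < δ) :
    ∃ η : ℝ, 0 < η ∧ η ≤ 1 / 4 ∧ η ≤ c / 2 ∧ η ≤ τ / 2 ∧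
      (1 + η) ^ 8 * ((c + η) / (2 * θ)) ≤ c / (2 * θ) + δ ∧
      (1 + η) ^ 8 * ((c + η) / (2 * θ)) - (1 - η) ^ 4 / (1 + η) ^ 3 * ((c - η) / (2 * θ)) ≤ δ ∧
      τ / (2 * θ) - δ ≤ (1 - η) ^ 4 / (1 + η) ^ 3 * ((τ - η) / (2 * θ)) := by
  have t1 : Tendsto (fun η : ℝ => (1 + η) ^ 8 * ((c + η) / (2 * θ))) (𝓝 0) (𝓝 (c / (2 * θ))) := by
    have h : ContinuousAt (fun η : ℝ => (1 + η) ^ 8 * ((c + η) / (2 * θ))) 0 := by fun_prop
    have h' := h.tendsto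
    simp only [add_zero, one_pow, one_mul] at h'
    exact h'
  have t2 : ∀ d : ℝ, Tendsto (fun η : ℝ => (1 - η) ^ 4 / (1 + η) ^ 3 * ((d - η) / (2 * θ))) (𝓝 0)
      (𝓝 (d / (2 * θ))) := by
    intro d
    have h : ContinuousAt (fun η : ℝ => (1 - η) ^ 4 / (1 + η) ^ 3 * ((d - η) / (2 * θ))) 0 := by
      apply ContinuousAt.mul
      · exact ContinuousAt.div (by fun_prop) (by fun_prop) (by norm_num)
      · fun_prop
    have h' := h.tendsto
    simp only [add_zero, sub_zero, one_pow, one_mul, div_one] at h'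
    exact h'
  have w1 := t1.eventually (gt_mem_nhds (show c / (2 * θ) < c / (2 * θ) + δ by linarith))
  have w2 := (t1.sub (t2 c)).eventually (gt_mem_nhds (show c / (2 * θ) - c / (2 * θ) < δ by simpa using hδ))
  have w3 := (t2 τ).eventually (lt_mem_nhds (show τ / (2 * θ) - δ < τ / (2 * θ) by linarith))
  have w4 : ∀ᶠ η : ℝ in 𝓝 0, η < min (1 / 4) (min (c / 2) (τ / 2)) := by
    apply gt_mem_nhds
    simp only [lt_min_iff]
    exact ⟨by norm_num, by positivity, by positivity⟩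
  have w5 : ∀ᶠ η : ℝ in 𝓝[>] 0, _ := nhdsWithin_le_nhds ((w1.and w2).and (w3.and w4))
  obtain ⟨η, h1, h2⟩ := (w5.and self_mem_nhdsWithin).exists
  obtain ⟨⟨g1, g2⟩, g3, g4⟩ := h1
  simp only [lt_min_iff] at g4
  exact ⟨η, h2, g4.1.le, g4.2.1.le, g4.2.2.le, g1.le, g2.le, g3.le⟩

theorem ev_loglog : Tendsto (fun x : ℕ => Real.log (Real.log x)) atTop atTop :=
  Real.tendsto_log_atTop.comp ev_log

theorem z_log {ρ η : ℝ} (hρ : 0 < ρ) (hη : 0 < η) :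
    ∀ᶠ x : ℕ in atTop, (1 - η) * Real.log (Real.log x) ≤ Real.log ⌊ρ * Real.log x⌋₊ := by
  filter_upwards [ev_loglog.eventually_ge_atTop (-Real.log (ρ / 2) / η),
    ev_log.eventually_ge_atTop (2 / ρ + 1)] with x h1 h2
  have hL : 0 < Real.log x := lt_of_lt_of_le (by positivity) h2
  have h3 : 2 ≤ ρ * Real.log x := by
    have : 2 / ρ ≤ Real.log x := by linarith
    rw [div_le_iff₀ hρ] at this
    linarith
  have h4 : ρ / 2 * Real.log x ≤ ⌊ρ * Real.log x⌋₊ := by linarith [Nat.lt_floor_add_one (ρ * Real.log x)]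
  have h5 : Real.log (ρ / 2 * Real.log x) ≤ Real.log ⌊ρ * Real.log x⌋₊ :=
    Real.log_le_log (by positivity) h4
  rw [Real.log_mul (by positivity) (by positivity)] at h5
  rw [div_le_iff₀ hη] at h1
  linarith

theorem ct_lt {κ ρ : ℝ} (hκ : 0 < κ) (hρ : 0 < ρ) :
    ∀ᶠ x : ℕ in atTop, ct κ x < ⌊ρ * Real.log x⌋₊ ^ 3 := by
  filter_upwards [(z_tendsto hρ).eventually_ge_atTop (⌈16 * κ / ρ ^ 2⌉₊ + 2),
    eventually_ge_atTop 4] with x h1 h2
  have hx : (4 : ℝ) ≤ x := by exact_mod_cast h2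
  have hL : 0 ≤ Real.log (x : ℝ) := Real.log_nonneg (by linarith)
  have h4 : 0 ≤ Real.log (4 * (x : ℝ)) := Real.log_nonneg (by linarith)
  have h5 := log4_le h2
  set z := ⌊ρ * Real.log x⌋₊ with hz
  have h6 : (⌈16 * κ / ρ ^ 2⌉₊ : ℝ) + 2 ≤ z := by exact_mod_cast h1
  have h7 : 16 * κ / ρ ^ 2 ≤ ⌈16 * κ / ρ ^ 2⌉₊ := Nat.le_ceil _
  have h8 : 16 * κ / ρ ^ 2 < z := by linarith
  have hz0 : (0 : ℝ) < z := lt_of_le_of_lt (by positivity) h8
  have h9 : ρ * Real.log x ≤ 2 * z := by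
    have := (Nat.lt_floor_add_one (ρ * Real.log x)).le
    have h10 : (0 : ℝ) ≤ (⌈16 * κ / ρ ^ 2⌉₊ : ℝ) := by positivity
    linarith
  have h11 : (ct κ x : ℝ) ≤ κ * Real.log (4 * (x : ℝ)) ^ 2 := Nat.floor_le (by positivity)
  have h12 : Real.log (4 * (x : ℝ)) ^ 2 ≤ (2 * Real.log x) ^ 2 := pow_le_pow_left₀ h4 h5 2
  have h13 : (ρ * Real.log x) ^ 2 ≤ (2 * z) ^ 2 := pow_le_pow_left₀ (by positivity) h9 2
  have h14 : (ct κ x : ℝ) < (z : ℝ) ^ 3 := by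
    calc (ct κ x : ℝ) ≤ κ * (2 * Real.log x) ^ 2 := h11.trans (mul_le_mul_of_nonneg_left h12 hκ.le)
      _ = 4 * κ / ρ ^ 2 * (ρ * Real.log x) ^ 2 := by field_simp; ring
      _ ≤ 4 * κ / ρ ^ 2 * (2 * z) ^ 2 := mul_le_mul_of_nonneg_left h13 (by positivity)
      _ = 16 * κ / ρ ^ 2 * (z : ℝ) ^ 2 := by ring
      _ < z * (z : ℝ) ^ 2 := mul_lt_mul_of_pos_right h8 (by positivity)
      _ = (z : ℝ) ^ 3 := by ring
  exact_mod_cast h14

theorem ct_mono {α β : ℝ} (h : α ≤ β) (x : ℕ) : ct α x ≤ ct β x :=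
  Nat.floor_le_floor (mul_le_mul_of_nonneg_right h (by positivity))

open Classical in
/-- the elements of the window without prime factors up to `z` -/
noncomputable def DD (z : ℕ) (α β : ℝ) (x : ℕ) : Finset ℕ :=
  (Ioc (ct α x) (ct β x)).filter fun j : ℕ => ∀ p : ℕ, p.Prime → p ≤ z → ¬ p ∣ j

theorem ss_card (P z y x k : ℕ) (α β W : ℝ) (hP : ∀ p : ℕ, p.Prime → (p ∣ P ↔ p ≤ z)) (hzW : (z : ℝ) ≤ W)
    (hy : y = ⌊W⌋₊) :
    #(SS W α β x (k * P)) = #((DD z α β x).filter fun j => ∀ p ∈ prI z y, ¬ p ∣ k * P + j) := by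
  classical
  have hW0 : 0 ≤ W := (Nat.cast_nonneg z).trans hzW
  rw [← card_image_of_injective ((DD z α β x).filter fun j => ∀ p ∈ prI z y, ¬ p ∣ k * P + j)
    (add_right_injective (k * P))]
  congr 1
  ext n
  simp only [SS, DD, mem_image, mem_filter, mem_Ioc]
  constructor
  · rintro ⟨⟨h1, h2⟩, h3⟩
    have hn : k * P + (n - k * P) = n := by omega
    refine ⟨n - k * P, ⟨⟨⟨by omega, by omega⟩, ?_⟩, ?_⟩, hn⟩
    · intro p hp hpz hd
      apply h3 p hp ((Nat.cast_le.2 hpz).trans hzW)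
      rw [← hn]
      exact dvd_add (((hP p hp).2 hpz).mul_left _) hd
    · intro p hp
      rw [hn]
      rw [prI, mem_filter, mem_Ioc] at hp
      apply h3 p hp.2
      have := hp.1.2
      rw [hy] at this
      exact (Nat.cast_le.2 this).trans (Nat.floor_le hW0)
  · rintro ⟨j, ⟨⟨⟨h1, h2⟩, h3⟩, h4⟩, rfl⟩
    refine ⟨⟨by omega, by omega⟩, ?_⟩
    intro p hp hpW hd
    rcases le_or_gt p z with hpz | hpz
    · have h5 : p ∣ k * P := ((hP p hp).2 hpz).mul_left _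
      exact h3 p hp hpz ((Nat.dvd_add_right h5).1 hd)
    · refine h4 p ?_ hd
      rw [prI, mem_filter, mem_Ioc]
      refine ⟨⟨hpz, ?_⟩, hp⟩
      rw [hy]
      exact Nat.le_floor hpW

theorem DD_sub {z : ℕ} {α β κ : ℝ} (h : β ≤ κ) (x : ℕ) : DD z α β x ⊆ Icc 1 (ct κ x) := by
  classical
  intro j hj
  rw [DD, mem_filter, mem_Ioc] at hj
  have := ct_mono h x
  rw [mem_Icc]
  omega

end Pool.Agent.L5helper33.LG
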